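import Pool.Agent.W670.TL.Defs

set_option autoImplicit false

open NumberField Polynomial

namespace Pool.Agent.W853.TL

theorem ram : Pool.Agent.W670.TL.S_RAM := by
  intro M _ _ q p a hp hq ha
  by_contra hdisc
  have hpZ : Prime (p : ℤ) := Nat.prime_iff_prime_int.1 hp
  have hunr := (NumberField.not_dvd_discr_iff_forall_mem M (𝓞 M) hpZ).1 hdisc
  have hint : IsIntegral ℤ a := by
    refine ⟨X ^ q - C (p : ℤ), monic_X_pow_sub_C _ (by omega), ?_⟩
    simp [ha]
  obtain ⟨α, hαa⟩ : ∃ α : 𝓞 M, algebraMap (𝓞 M) M α = a := ⟨⟨a, hint⟩, rfl⟩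
  have hα : α ^ q = ((p : ℤ) : 𝓞 M) := by
    apply FaithfulSMul.algebraMap_injective (𝓞 M) M
    rw [map_pow, hαa, ha]
    simp
  haveI hmax : (Ideal.span {(p : ℤ)}).IsMaximal :=
    PrincipalIdealRing.isMaximal_of_irreducible hpZ.irreducible
  obtain ⟨P, hPm, hPc⟩ := Ideal.exists_ideal_over_maximal_of_isIntegral (S := 𝓞 M)
    (Ideal.span {(p : ℤ)}) (by
      rw [(RingHom.injective_iff_ker_eq_bot _).1 (FaithfulSMul.algebraMap_injective ℤ (𝓞 M))]
      exact bot_le)
  haveI := hPm.isPrime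
  have hpP : ((p : ℤ) : 𝓞 M) ∈ P := by
    have : (p : ℤ) ∈ Ideal.comap (algebraMap ℤ (𝓞 M)) P := by
      rw [hPc]
      exact Ideal.mem_span_singleton_self _
    simpa using this
  haveI := hunr P this hpP
  have hp0 : ((p : ℤ) : 𝓞 M) ≠ 0 := by
    have := hp.ne_zero
    exact_mod_cast this
  have hPb : P ≠ ⊥ := by
    rintro rfl
    exact hp0 (by simpa using hpP)
  letI := Localization.AtPrime.algebraOfLiesOver (P.under ℤ) P
  have h2 := ((Algebra.isUnramifiedAt_iff_map_eq ℤ (P.under ℤ) P).mp inferInstance).2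
  have h3 := Ideal.ramificationIdx'_eq_one_of_map_localization (p := P.under ℤ) (P := P)
    Ideal.map_comap_le hPb P.primeCompl_le_nonZeroDivisors h2
  have h4 : ¬ (Ideal.map (algebraMap ℤ (𝓞 M)) (P.under ℤ) ≤ P ^ 2) := by
    intro h
    exact (Ideal.ramificationIdx'_ne_one_iff Ideal.map_comap_le).2 h h3
  apply h4
  have h5 : P.under ℤ = Ideal.span {(p : ℤ)} := hPc
  rw [h5, Ideal.map_span, Ideal.span_le, Set.image_singleton, Set.singleton_subset_iff]
  have h6 : α ∈ P := by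
    refine Ideal.IsPrime.mem_of_pow_mem inferInstance q ?_
    rw [hα]
    exact hpP
  have h7 : α ^ q ∈ P ^ 2 := Ideal.pow_le_pow_right hq (Ideal.pow_mem_pow h6 q)
  rw [hα] at h7
  simpa using h7

end Pool.Agent.W853.TL
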