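import Pool.Agent.W774.TL.Stm

set_option autoImplicit false

open Set Filter Topology
open Pool.Agent.W774.TL

namespace Pool.Agent.W853.TL

/-- coefficient families, closed under differentiation -/
inductive Fam : (ℤ → ℝ → ℝ) → Prop
  | one : Fam (fun _ _ => 1)
  | mulj (G : ℤ → ℝ → ℝ) : Fam G → Fam (fun j u => (j : ℝ) * G j u)
  | mulA (G : ℤ → ℝ → ℝ) : Fam G → Fam (fun j u => (3 : ℝ) ^ j.natAbs * G j u)
  | mulCo (G : ℤ → ℝ → ℝ) : Fam G → Fam (fun j u => Co u * G j u)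
  | mulS (G : ℤ → ℝ → ℝ) : Fam G → Fam (fun j u => S u * G j u)
  | add (G H : ℤ → ℝ → ℝ) : Fam G → Fam H → Fam (fun j u => G j u + H j u)
  | smul (c : ℝ) (G : ℤ → ℝ → ℝ) : Fam G → Fam (fun j u => c * G j u)

lemma one_le_A (j : ℤ) : (1 : ℝ) ≤ (3 : ℝ) ^ j.natAbs := one_le_pow₀ (by norm_num)

lemma abs_j_le (j : ℤ) : |(j : ℝ)| ≤ (3 : ℝ) ^ j.natAbs := by
  have h1 : j.natAbs < 3 ^ j.natAbs := Nat.lt_pow_self (by norm_num)
  have h2 : ((j.natAbs : ℕ) : ℝ) ≤ (3 : ℝ) ^ j.natAbs := by exact_mod_cast h1.le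
  rwa [Nat.cast_natAbs, Int.cast_abs] at h2

lemma abs_Co_le (u : ℝ) : |Co u| ≤ 1 := Real.abs_cos_le_one _

lemma abs_S_le (u : ℝ) : |S u| ≤ 1 := by
  unfold S
  have hpi := Real.pi_gt_three
  rw [abs_div, abs_of_pos (show (0:ℝ) < 2 * Real.pi by positivity), div_le_one (by positivity)]
  have := Real.abs_sin_le_one (2 * Real.pi * u)
  linarith

lemma Fam.bound {G : ℤ → ℝ → ℝ} (hG : Fam G) :
    ∃ (C : ℝ) (k : ℕ), 0 ≤ C ∧ ∀ j u, |G j u| ≤ C * ((3 : ℝ) ^ j.natAbs) ^ k := by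
  induction hG with
  | one => exact ⟨1, 0, by norm_num, fun j u => by simp⟩
  | mulj G _ ih =>
    obtain ⟨C, k, hC, h⟩ := ih
    refine ⟨C, k + 1, hC, fun j u => ?_⟩
    rw [abs_mul, pow_succ]
    have h1 := h j u
    have h2 := abs_j_le j
    have h3 := one_le_A j
    calc |(j : ℝ)| * |G j u| ≤ (3 : ℝ) ^ j.natAbs * (C * ((3 : ℝ) ^ j.natAbs) ^ k) := by gcongr
      _ = _ := by ring
  | mulA G _ ih =>
    obtain ⟨C, k, hC, h⟩ := ih
    refine ⟨C, k + 1, hC, fun j u => ?_⟩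
    rw [abs_mul, pow_succ, abs_of_pos (show (0:ℝ) < (3 : ℝ) ^ j.natAbs by positivity)]
    have h1 := h j u
    calc (3 : ℝ) ^ j.natAbs * |G j u| ≤ (3 : ℝ) ^ j.natAbs * (C * ((3 : ℝ) ^ j.natAbs) ^ k) := by
          gcongr
      _ = _ := by ring
  | mulCo G _ ih =>
    obtain ⟨C, k, hC, h⟩ := ih
    refine ⟨C, k, hC, fun j u => ?_⟩
    rw [abs_mul]
    have h1 := h j u
    calc |Co u| * |G j u| ≤ 1 * (C * ((3 : ℝ) ^ j.natAbs) ^ k) := by
          gcongr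
          exact abs_Co_le u
      _ = _ := by ring
  | mulS G _ ih =>
    obtain ⟨C, k, hC, h⟩ := ih
    refine ⟨C, k, hC, fun j u => ?_⟩
    rw [abs_mul]
    have h1 := h j u
    calc |S u| * |G j u| ≤ 1 * (C * ((3 : ℝ) ^ j.natAbs) ^ k) := by
          gcongr
          exact abs_S_le u
      _ = _ := by ring
  | add G H _ _ ih1 ih2 =>
    obtain ⟨C, k, hC, h⟩ := ih1
    obtain ⟨D, l, hD, h'⟩ := ih2
    refine ⟨C + D, k + l, by positivity, fun j u => ?_⟩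
    have h3 := one_le_A j
    have h4 : ((3 : ℝ) ^ j.natAbs) ^ k ≤ ((3 : ℝ) ^ j.natAbs) ^ (k + l) :=
      pow_le_pow_right₀ h3 (by omega)
    have h5 : ((3 : ℝ) ^ j.natAbs) ^ l ≤ ((3 : ℝ) ^ j.natAbs) ^ (k + l) :=
      pow_le_pow_right₀ h3 (by omega)
    calc |G j u + H j u| ≤ |G j u| + |H j u| := abs_add_le _ _
      _ ≤ C * ((3 : ℝ) ^ j.natAbs) ^ k + D * ((3 : ℝ) ^ j.natAbs) ^ l := add_le_add (h j u) (h' j u)
      _ ≤ C * ((3 : ℝ) ^ j.natAbs) ^ (k + l) + D * ((3 : ℝ) ^ j.natAbs) ^ (k + l) := by gcongr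
      _ = _ := by ring
  | smul c G _ ih =>
    obtain ⟨C, k, hC, h⟩ := ih
    refine ⟨|c| * C, k, by positivity, fun j u => ?_⟩
    rw [abs_mul]
    have h1 := h j u
    calc |c| * |G j u| ≤ |c| * (C * ((3 : ℝ) ^ j.natAbs) ^ k) := by gcongr
      _ = _ := by ring

lemma hasDeriv_S (u : ℝ) : HasDerivAt S (Co u) u := by
  have h1 : HasDerivAt (fun u : ℝ => 2 * Real.pi * u) (2 * Real.pi) u := by
    simpa using (hasDerivAt_id u).const_mul (2 * Real.pi)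
  have h2 := (h1.sin).div_const (2 * Real.pi)
  have hpi : (2 * Real.pi) ≠ 0 := by positivity
  have e : Real.cos (2 * Real.pi * u) * (2 * Real.pi) / (2 * Real.pi) = Co u := by
    unfold Co
    field_simp
  rw [e] at h2
  exact h2

lemma hasDeriv_Co (u : ℝ) : HasDerivAt Co (-(2 * Real.pi) ^ 2 * S u) u := by
  have h1 : HasDerivAt (fun u : ℝ => 2 * Real.pi * u) (2 * Real.pi) u := by
    simpa using (hasDerivAt_id u).const_mul (2 * Real.pi)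
  have h2 := h1.cos
  have hpi : (2 * Real.pi) ≠ 0 := by positivity
  have e : -Real.sin (2 * Real.pi * u) * (2 * Real.pi) = -(2 * Real.pi) ^ 2 * S u := by
    unfold S
    field_simp
  rw [e] at h2
  exact h2

lemma Fam.deriv {G : ℤ → ℝ → ℝ} (hG : Fam G) :
    ∃ G' : ℤ → ℝ → ℝ, Fam G' ∧ ∀ j u, HasDerivAt (G j) (G' j u) u := by
  induction hG with
  | one =>
    refine ⟨_, Fam.smul 0 _ Fam.one, fun j u => ?_⟩
    simpa using hasDerivAt_const u (1:ℝ)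
  | mulj G _ ih =>
    obtain ⟨G', hG', h⟩ := ih
    exact ⟨_, Fam.mulj _ hG', fun j u => (h j u).const_mul _⟩
  | mulA G _ ih =>
    obtain ⟨G', hG', h⟩ := ih
    exact ⟨_, Fam.mulA _ hG', fun j u => (h j u).const_mul _⟩
  | mulCo G hG ih =>
    obtain ⟨G', hG', h⟩ := ih
    refine ⟨_, Fam.add _ _ (Fam.smul (-(2 * Real.pi) ^ 2) _ (Fam.mulS _ hG)) (Fam.mulCo _ hG'),
      fun j u => ?_⟩
    have := (hasDeriv_Co u).mul (h j u)
    rw [← mul_assoc]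
    exact this
  | mulS G hG ih =>
    obtain ⟨G', hG', h⟩ := ih
    exact ⟨_, Fam.add _ _ (Fam.mulCo _ hG) (Fam.mulS _ hG'),
      fun j u => (hasDeriv_S u).mul (h j u)⟩
  | add G H _ _ ih1 ih2 =>
    obtain ⟨G', hG', h⟩ := ih1
    obtain ⟨H', hH', h'⟩ := ih2
    exact ⟨_, Fam.add _ _ hG' hH', fun j u => (h j u).add (h' j u)⟩
  | smul c G _ ih =>
    obtain ⟨G', hG', h⟩ := ih
    exact ⟨_, Fam.smul c _ hG', fun j u => (h j u).const_mul _⟩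

/-- terms -/
noncomputable def T (G : ℤ → ℝ → ℝ) (j : ℤ) (q : ℝ × ℝ × ℝ) : ℝ :=
  G j (q.1 - j * q.2.2) * E j q.1 q.2.1 q.2.2

noncomputable def p1 : ℝ × ℝ × ℝ →L[ℝ] ℝ := ContinuousLinearMap.fst ℝ ℝ (ℝ × ℝ)
noncomputable def p2 : ℝ × ℝ × ℝ →L[ℝ] ℝ :=
  (ContinuousLinearMap.fst ℝ ℝ ℝ).comp (ContinuousLinearMap.snd ℝ ℝ (ℝ × ℝ))
noncomputable def p3 : ℝ × ℝ × ℝ →L[ℝ] ℝ :=
  (ContinuousLinearMap.snd ℝ ℝ ℝ).comp (ContinuousLinearMap.snd ℝ ℝ (ℝ × ℝ))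

lemma p1_norm : ‖p1‖ ≤ 1 := ContinuousLinearMap.norm_fst_le ..
lemma p2_norm : ‖p2‖ ≤ 1 := by
  refine (ContinuousLinearMap.opNorm_comp_le _ _).trans ?_
  have h1 := ContinuousLinearMap.norm_fst_le ℝ ℝ ℝ
  have h2 := ContinuousLinearMap.norm_snd_le ℝ ℝ (ℝ × ℝ)
  exact mul_le_one₀ h1 (norm_nonneg _) h2
lemma p3_norm : ‖p3‖ ≤ 1 := by
  refine (ContinuousLinearMap.opNorm_comp_le _ _).trans ?_
  have h1 := ContinuousLinearMap.norm_snd_le ℝ ℝ ℝ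
  have h2 := ContinuousLinearMap.norm_snd_le ℝ ℝ (ℝ × ℝ)
  exact mul_le_one₀ h1 (norm_nonneg _) h2

lemma T_deriv {G : ℤ → ℝ → ℝ} (hG : Fam G) :
    ∃ G1 G2 G3 : ℤ → ℝ → ℝ, Fam G1 ∧ Fam G2 ∧ Fam G3 ∧ ∀ j q,
      HasFDerivAt (T G j) (T G1 j q • p1 + T G2 j q • p2 + T G3 j q • p3) q := by
  obtain ⟨G', hG', h⟩ := hG.deriv
  have hG1 : Fam (fun j u => G' j u + (-1) * ((3 : ℝ) ^ j.natAbs * (Co u * G j u))) :=
    Fam.add _ _ hG' (Fam.smul (-1) _ (Fam.mulA _ (Fam.mulCo _ hG)))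
  refine ⟨_, _, _, hG1, Fam.mulj _ hG, Fam.smul (-1) _ (Fam.mulj _ hG1), fun j q => ?_⟩
  have hL : HasFDerivAt (fun q : ℝ × ℝ × ℝ => q.1 - j * q.2.2) (p1 - (j : ℝ) • p3) q := by
    have a1 : HasFDerivAt (fun q : ℝ × ℝ × ℝ => q.1) p1 q := p1.hasFDerivAt
    have a3 : HasFDerivAt (fun q : ℝ × ℝ × ℝ => q.2.2) p3 q := p3.hasFDerivAt
    exact a1.sub (a3.const_mul _)
  have hp2 : HasFDerivAt (fun q : ℝ × ℝ × ℝ => (j:ℝ) * q.2.1) ((j : ℝ) • p2) q := by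
    have a2 : HasFDerivAt (fun q : ℝ × ℝ × ℝ => q.2.1) p2 q := p2.hasFDerivAt
    exact a2.const_mul _
  have hGd : HasFDerivAt (fun q : ℝ × ℝ × ℝ => G j (q.1 - j * q.2.2))
      (G' j (q.1 - j * q.2.2) • (p1 - (j : ℝ) • p3)) q :=
    (h j (q.1 - j * q.2.2)).comp_hasFDerivAt q hL
  have hSd : HasFDerivAt (fun q : ℝ × ℝ × ℝ => S (q.1 - j * q.2.2))
      (Co (q.1 - j * q.2.2) • (p1 - (j : ℝ) • p3)) q :=
    HasDerivAt.comp_hasFDerivAt (h₂ := S) q (hasDeriv_S (q.1 - j * q.2.2)) hL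
  have hEd : HasFDerivAt (fun q : ℝ × ℝ × ℝ => E j q.1 q.2.1 q.2.2)
      (E j q.1 q.2.1 q.2.2 • ((j : ℝ) • p2 -
        (3 : ℝ) ^ j.natAbs • (Co (q.1 - j * q.2.2) • (p1 - (j : ℝ) • p3)))) q := by
    have := (hp2.sub ((hSd.const_add (3 / 4)).const_mul ((3 : ℝ) ^ j.natAbs))).exp
    exact this
  have hfin := hGd.mul hEd
  refine hfin.congr_fderiv ?_
  refine ContinuousLinearMap.ext fun v => ?_
  simp only [T, add_apply, smul_apply, sub_apply, smul_eq_mul]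
  ring

lemma T_bound (h1 : P_SUM) {G : ℤ → ℝ → ℝ} (hG : Fam G) (R : ℝ) :
    ∃ u : ℤ → ℝ, Summable u ∧ ∀ j (q : ℝ × ℝ × ℝ), |q.2.1| ≤ R → |T G j q| ≤ u j := by
  obtain ⟨C, k, hC, h⟩ := hG.bound
  obtain ⟨u, hu, hb⟩ := h1 k R
  refine ⟨fun j => C * u j, hu.mul_left C, fun j q hq => ?_⟩
  have h2 := hb j q.1 q.2.1 q.2.2 hq
  have hE : 0 < E j q.1 q.2.1 q.2.2 := Real.exp_pos _
  unfold T
  rw [abs_mul, abs_of_pos hE]
  calc |G j (q.1 - j * q.2.2)| * E j q.1 q.2.1 q.2.2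
      ≤ (C * ((3 : ℝ) ^ j.natAbs) ^ k) * E j q.1 q.2.1 q.2.2 := by
        have := h j (q.1 - j * q.2.2)
        gcongr
    _ = C * (((3 : ℝ) ^ j.natAbs) ^ k * E j q.1 q.2.1 q.2.2) := by ring
    _ ≤ C * u j := by gcongr

lemma T_summable (h1 : P_SUM) {G : ℤ → ℝ → ℝ} (hG : Fam G) (q : ℝ × ℝ × ℝ) :
    Summable (fun j => T G j q) := by
  obtain ⟨u, hu, hb⟩ := T_bound h1 hG |q.2.1|
  exact Summable.of_norm_bounded hu (fun j => hb j q le_rfl)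

lemma tsum_deriv (h1 : P_SUM) {G : ℤ → ℝ → ℝ} (hG : Fam G) :
    ∃ G1 G2 G3 : ℤ → ℝ → ℝ, Fam G1 ∧ Fam G2 ∧ Fam G3 ∧ ∀ q,
      HasFDerivAt (fun q => ∑' j, T G j q)
        ((∑' j, T G1 j q) • p1 + (∑' j, T G2 j q) • p2 + (∑' j, T G3 j q) • p3) q := by
  obtain ⟨G1, G2, G3, hG1, hG2, hG3, hd⟩ := T_deriv hG
  refine ⟨G1, G2, G3, hG1, hG2, hG3, fun q => ?_⟩
  obtain ⟨u1, hu1, hb1⟩ := T_bound h1 hG1 (|q.2.1| + 1)
  obtain ⟨u2, hu2, hb2⟩ := T_bound h1 hG2 (|q.2.1| + 1)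
  obtain ⟨u3, hu3, hb3⟩ := T_bound h1 hG3 (|q.2.1| + 1)
  set s : Set (ℝ × ℝ × ℝ) := {r | r.2.1 ∈ Ioo (-(|q.2.1| + 1)) (|q.2.1| + 1)} with hs
  have hso : IsOpen s := isOpen_Ioo.preimage (continuous_fst.comp continuous_snd)
  have hsc : Convex ℝ s := by
    have : s = (p2 : ℝ × ℝ × ℝ →ₗ[ℝ] ℝ) ⁻¹' (Ioo (-(|q.2.1| + 1)) (|q.2.1| + 1)) := rfl
    rw [this]
    exact (convex_Ioo _ _).linear_preimage _
  have hqs : q ∈ s := by
    rw [hs]
    constructor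
    · have := neg_abs_le q.2.1
      linarith
    · have := le_abs_self q.2.1
      linarith
  have hle : ∀ r ∈ s, |r.2.1| ≤ |q.2.1| + 1 := fun r hr => abs_le.2 ⟨hr.1.le, hr.2.le⟩
  have hmain := hasFDerivAt_tsum_of_isPreconnected (𝕜 := ℝ) ((hu1.add hu2).add hu3) hso
    hsc.isPreconnected (f := fun j => T G j)
    (f' := fun j r => T G1 j r • p1 + T G2 j r • p2 + T G3 j r • p3)
    (fun j r _ => hd j r)
    (fun j r hr => by
      refine (norm_add_le _ _).trans (add_le_add ((norm_add_le _ _).trans (add_le_add ?_ ?_)) ?_)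
      · rw [norm_smul, Real.norm_eq_abs]
        exact (mul_le_of_le_one_right (abs_nonneg _) p1_norm).trans (hb1 j r (hle r hr))
      · rw [norm_smul, Real.norm_eq_abs]
        exact (mul_le_of_le_one_right (abs_nonneg _) p2_norm).trans (hb2 j r (hle r hr))
      · rw [norm_smul, Real.norm_eq_abs]
        exact (mul_le_of_le_one_right (abs_nonneg _) p3_norm).trans (hb3 j r (hle r hr)))
    hqs (T_summable h1 hG q) hqs
  have e : ∑' j, (T G1 j q • p1 + T G2 j q • p2 + T G3 j q • p3) =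
      (∑' j, T G1 j q) • p1 + (∑' j, T G2 j q) • p2 + (∑' j, T G3 j q) • p3 := by
    have s1 := (T_summable h1 hG1 q).hasSum.smul_const p1
    have s2 := (T_summable h1 hG2 q).hasSum.smul_const p2
    have s3 := (T_summable h1 hG3 q).hasSum.smul_const p3
    exact ((s1.add s2).add s3).tsum_eq
  rw [e] at hmain
  exact hmain

lemma smooth_aux (h1 : P_SUM) (N : ℕ) : ∀ G : ℤ → ℝ → ℝ, Fam G →
    ContDiff ℝ N (fun q => ∑' j, T G j q) := by
  induction N with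
  | zero =>
    intro G hG
    obtain ⟨G1, G2, G3, _, _, _, hd⟩ := tsum_deriv h1 hG
    have : Continuous (fun q => ∑' j, T G j q) :=
      continuous_iff_continuousAt.2 fun q => (hd q).continuousAt
    exact_mod_cast contDiff_zero.2 this
  | succ N ih =>
    intro G hG
    obtain ⟨G1, G2, G3, hG1, hG2, hG3, hd⟩ := tsum_deriv h1 hG
    have hfd : fderiv ℝ (fun q => ∑' j, T G j q) = fun q =>
        (∑' j, T G1 j q) • p1 + (∑' j, T G2 j q) • p2 + (∑' j, T G3 j q) • p3 :=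
      funext fun q => (hd q).fderiv
    have : ContDiff ℝ ((N : WithTop ℕ∞) + 1) (fun q => ∑' j, T G j q) := by
      rw [contDiff_succ_iff_fderiv]
      refine ⟨fun q => (hd q).differentiableAt, ?_, ?_⟩
      · intro h
        exact absurd h (by exact_mod_cast WithTop.coe_ne_top)
      · rw [hfd]
        exact (((ih G1 hG1).smul contDiff_const).add ((ih G2 hG2).smul contDiff_const)).add
          ((ih G3 hG3).smul contDiff_const)
    exact_mod_cast this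

theorem smooth_thm (h1 : P_SUM) : P_SMOOTH := by
  unfold P_SMOOTH
  rw [contDiff_infty]
  intro N
  have := smooth_aux h1 N _ Fam.one
  have e : (fun q : ℝ × ℝ × ℝ => Z q.1 q.2.1 q.2.2) = fun q => ∑' j, T (fun _ _ => 1) j q := by
    funext q
    unfold Z T
    simp
  rw [e]
  exact this

end Pool.Agent.W853.TL
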